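import Mathlib

set_option autoImplicit false
open Classical

namespace Pool.Agent.P.MP_3a7cda_pr.Upper

/-- percolation of the r-neighbour process, in the form of the frozen statement -/
def Perc (r d : ℕ) (A : Finset (Fin d → Bool)) : Prop :=
  ∀ S : Finset (Fin d → Bool), A ⊆ S →
    (∀ v : Fin d → Bool, r ≤ (S.filter (fun u => hammingDist u v = 1)).card → v ∈ S) →
    S = Finset.univ

/-- weight of a set -/
noncomputable def wt (d : ℕ) (p : ℝ) (A : Finset (Fin d → Bool)) : ℝ :=
  p ^ A.card * (1 - p) ^ (2 ^ d - A.card)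

/-- probability of an event -/
noncomputable def Pr (d : ℕ) (p : ℝ) (E : Finset (Fin d → Bool) → Prop) : ℝ :=
  ∑ A : Finset (Fin d → Bool), if E A then wt d p A else 0

/-- one half of a set in the cube of dimension d+1 -/
noncomputable def side {d : ℕ} (b : Bool) (A : Finset (Fin (d + 1) → Bool)) :
    Finset (Fin d → Bool) :=
  Finset.univ.filter (fun x => (Fin.cons b x : Fin (d + 1) → Bool) ∈ A)

lemma mem_side {d : ℕ} {b : Bool} {A : Finset (Fin (d + 1) → Bool)} {x : Fin d → Bool} :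
    x ∈ side b A ↔ (Fin.cons b x : Fin (d + 1) → Bool) ∈ A := by
  simp [side]

/-- glue two halves -/
noncomputable def glue {d : ℕ} (A0 A1 : Finset (Fin d → Bool)) : Finset (Fin (d + 1) → Bool) :=
  Finset.univ.filter (fun y => if y 0 = true then Fin.tail y ∈ A1 else Fin.tail y ∈ A0)

lemma side_glue_false {d : ℕ} (A0 A1 : Finset (Fin d → Bool)) : side false (glue A0 A1) = A0 := by
  ext x; simp [mem_side, glue]

lemma side_glue_true {d : ℕ} (A0 A1 : Finset (Fin d → Bool)) : side true (glue A0 A1) = A1 := by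
  ext x; simp [mem_side, glue]

lemma glue_side {d : ℕ} (A : Finset (Fin (d + 1) → Bool)) :
    glue (side false A) (side true A) = A := by
  ext y
  have hy : y = Fin.cons (y 0) (Fin.tail y) := (Fin.cons_self_tail y).symm
  simp only [glue, Finset.mem_filter, Finset.mem_univ, true_and, mem_side]
  by_cases h : y 0 = true
  · simp only [h, if_true]
    rw [← h, Fin.cons_self_tail]
  · have h' : y 0 = false := by simpa using h
    simp only [h', Bool.false_eq_true, if_false]
    rw [← h', Fin.cons_self_tail]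

/-- the splitting bijection -/
noncomputable def splitEquiv (d : ℕ) :
    Finset (Fin (d + 1) → Bool) ≃ Finset (Fin d → Bool) × Finset (Fin d → Bool) where
  toFun A := (side false A, side true A)
  invFun P := glue P.1 P.2
  left_inv A := glue_side A
  right_inv P := by simp [side_glue_false, side_glue_true]

lemma card_side {d : ℕ} (b : Bool) (A : Finset (Fin (d + 1) → Bool)) :
    (side b A).card = (A.filter (fun y => y 0 = b)).card := by
  apply Finset.card_bij (fun x _ => (Fin.cons b x : Fin (d + 1) → Bool))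
  · intro x hx
    simp [mem_side.1 hx]
  · intro x _ y _ h
    exact Fin.cons_right_injective (α := fun _ => Bool) b h
  · intro y hy
    rw [Finset.mem_filter] at hy
    refine ⟨Fin.tail y, ?_, ?_⟩
    · rw [mem_side, ← hy.2, Fin.cons_self_tail]; exact hy.1
    · rw [← hy.2, Fin.cons_self_tail]

lemma card_split {d : ℕ} (A : Finset (Fin (d + 1) → Bool)) :
    A.card = (side false A).card + (side true A).card := by
  rw [card_side, card_side]
  have := Finset.card_filter_add_card_filter_not (s := A) (fun y => y 0 = false)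
  rw [← this]
  congr 2
  ext y; simp

lemma card_le_pow {d : ℕ} (A : Finset (Fin d → Bool)) : A.card ≤ 2 ^ d := by
  have := Finset.card_le_univ A
  simpa using this

lemma wt_split {d : ℕ} (p : ℝ) (A : Finset (Fin (d + 1) → Bool)) :
    wt (d + 1) p A = wt d p (side false A) * wt d p (side true A) := by
  unfold wt
  have h0 := card_le_pow (side false A)
  have h1 := card_le_pow (side true A)
  have h : 2 ^ (d + 1) - A.card =
      (2 ^ d - (side false A).card) + (2 ^ d - (side true A).card) := by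
    rw [card_split A, pow_succ]; omega
  rw [h, card_split A, pow_add, pow_add]; ring

lemma wt_nonneg {d : ℕ} {p : ℝ} (h0 : 0 ≤ p) (h1 : p ≤ 1) (A : Finset (Fin d → Bool)) :
    0 ≤ wt d p A := by
  unfold wt
  have : 0 ≤ 1 - p := by linarith
  positivity

lemma sum_wt (d : ℕ) (p : ℝ) : ∑ A : Finset (Fin d → Bool), wt d p A = 1 := by
  induction d with
  | zero =>
    have h : (Finset.univ : Finset (Finset (Fin 0 → Bool))) = {∅, Finset.univ} := by
      ext A
      simp only [Finset.mem_univ, Finset.mem_insert, Finset.mem_singleton, true_iff]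
      rcases A.eq_empty_or_nonempty with h | ⟨x, hx⟩
      · exact Or.inl h
      · right; ext y; simp only [Finset.mem_univ, iff_true]
        rw [Subsingleton.elim y x]; exact hx
    rw [h, Finset.sum_pair]
    · simp [wt]
    · exact (Finset.univ_nonempty.ne_empty).symm
  | succ d ih =>
    rw [← (splitEquiv d).symm.sum_comp]
    simp only [splitEquiv, Equiv.coe_fn_symm_mk, wt_split, side_glue_false, side_glue_true]
    rw [Fintype.sum_prod_type]
    simp only [← Finset.mul_sum, ih, mul_one]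

lemma hd_cons {d : ℕ} (b b' : Bool) (x y : Fin d → Bool) :
    hammingDist (Fin.cons b x : Fin (d + 1) → Bool) (Fin.cons b' y) =
      (if b = b' then 0 else 1) + hammingDist x y := by
  unfold hammingDist
  rw [Finset.card_filter, Finset.card_filter, Fin.sum_univ_succ]
  simp only [Fin.cons_zero, Fin.cons_succ]
  by_cases h : b = b' <;> simp [h]

lemma nb_count {d : ℕ} (S : Finset (Fin (d + 1) → Bool)) (b : Bool) (v : Fin d → Bool) :
    ((side b S).filter (fun u => hammingDist u v = 1)).card +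
        (if (Fin.cons (!b) v : Fin (d + 1) → Bool) ∈ S then 1 else 0) ≤
      (S.filter (fun u => hammingDist u (Fin.cons b v : Fin (d + 1) → Bool) = 1)).card := by
  have hinj : Function.Injective (fun x : Fin d → Bool => (Fin.cons b x : Fin (d + 1) → Bool)) :=
    fun x y h => Fin.cons_right_injective (α := fun _ => Bool) b h
  have hsub : ((side b S).filter (fun u => hammingDist u v = 1)).image
      (fun x => (Fin.cons b x : Fin (d + 1) → Bool)) ⊆
      S.filter (fun u => hammingDist u (Fin.cons b v : Fin (d + 1) → Bool) = 1) := by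
    intro y hy
    rw [Finset.mem_image] at hy
    obtain ⟨x, hx, rfl⟩ := hy
    rw [Finset.mem_filter] at hx ⊢
    refine ⟨mem_side.1 hx.1, ?_⟩
    rw [hd_cons]; simp [hx.2]
  rw [← Finset.card_image_of_injective _ hinj]
  by_cases h : (Fin.cons (!b) v : Fin (d + 1) → Bool) ∈ S
  · rw [if_pos h]
    apply Nat.succ_le_of_lt
    apply Finset.card_lt_card
    refine ⟨hsub, ?_⟩
    intro hc
    have hm : (Fin.cons (!b) v : Fin (d + 1) → Bool) ∈
        S.filter (fun u => hammingDist u (Fin.cons b v : Fin (d + 1) → Bool) = 1) := by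
      rw [Finset.mem_filter]
      refine ⟨h, ?_⟩
      rw [hd_cons]; cases b <;> simp
    have := hc hm
    rw [Finset.mem_image] at this
    obtain ⟨x, _, hx⟩ := this
    have := congrFun hx 0
    cases b <;> simp at this
  · rw [if_neg h, add_zero]
    exact Finset.card_le_card hsub

lemma perc_step {d r : ℕ} (A : Finset (Fin (d + 1) → Bool)) (b : Bool)
    (h1 : Perc (r + 1) d (side b A)) (h2 : Perc r d (side (!b) A)) : Perc (r + 1) (d + 1) A := by
  intro S hAS hS
  have e1 : side b S = Finset.univ := by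
    apply h1
    · intro x hx; exact mem_side.2 (hAS (mem_side.1 hx))
    · intro v hv
      apply mem_side.2
      apply hS
      have := nb_count S b v
      omega
  have e2 : side (!b) S = Finset.univ := by
    apply h2
    · intro x hx; exact mem_side.2 (hAS (mem_side.1 hx))
    · intro v hv
      apply mem_side.2
      apply hS
      have := nb_count S (!b) v
      have hm : (Fin.cons (!!b) v : Fin (d + 1) → Bool) ∈ S := by
        rw [Bool.not_not]; apply mem_side.1; rw [e1]; exact Finset.mem_univ _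
      rw [if_pos hm] at this
      omega
  ext y
  simp only [Finset.mem_univ, iff_true]
  rw [← Fin.cons_self_tail y]
  apply mem_side.1
  by_cases h : y 0 = b
  · rw [h, e1]; exact Finset.mem_univ _
  · have h' : y 0 = !b := by cases b <;> simpa using h
    rw [h', e2]; exact Finset.mem_univ _

lemma perc_mono {d r : ℕ} (A : Finset (Fin d → Bool)) (h : Perc (r + 1) d A) : Perc r d A := by
  intro S hAS hS
  exact h S hAS (fun v hv => hS v (by omega))

lemma perc_zero {d : ℕ} (A : Finset (Fin d → Bool)) : Perc 0 d A := by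
  intro S _ hS
  ext v; simp only [Finset.mem_univ, iff_true]; exact hS v (Nat.zero_le _)

/-- percolation probability -/
noncomputable def q (p : ℝ) (r d : ℕ) : ℝ := Pr d p (Perc r d)

lemma q_zero (p : ℝ) (d : ℕ) : q p 0 d = 1 := by
  unfold q Pr
  simp only [perc_zero, if_true, sum_wt]

lemma q_le_one {p : ℝ} (h0 : 0 ≤ p) (h1 : p ≤ 1) (r d : ℕ) : q p r d ≤ 1 := by
  rw [← sum_wt d p]
  unfold q Pr
  apply Finset.sum_le_sum
  intro A _
  split_ifs
  · exact le_rfl
  · exact wt_nonneg h0 h1 A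

lemma q_nonneg {p : ℝ} (h0 : 0 ≤ p) (h1 : p ≤ 1) (r d : ℕ) : 0 ≤ q p r d := by
  unfold q Pr
  apply Finset.sum_nonneg
  intro A _
  split_ifs
  · exact wt_nonneg h0 h1 A
  · exact le_rfl

lemma q_mono {p : ℝ} (h0 : 0 ≤ p) (h1 : p ≤ 1) (r d : ℕ) : q p (r + 1) d ≤ q p r d := by
  unfold q Pr
  apply Finset.sum_le_sum
  intro A _
  by_cases h : Perc (r + 1) d A
  · rw [if_pos h, if_pos (perc_mono A h)]
  · rw [if_neg h]
    split_ifs
    · exact wt_nonneg h0 h1 A
    · exact le_rfl

lemma q_base {p : ℝ} (h0 : 0 ≤ p) (h1 : p ≤ 1) (r : ℕ) : p ≤ q p r 0 := by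
  unfold q Pr
  have hu : Perc r 0 Finset.univ := fun S hS _ => Finset.univ_subset_iff.1 hS
  have := Finset.single_le_sum (s := Finset.univ)
    (f := fun A : Finset (Fin 0 → Bool) => if Perc r 0 A then wt 0 p A else 0)
    (fun A _ => by
      show 0 ≤ (if Perc r 0 A then wt 0 p A else 0)
      split_ifs
      · exact wt_nonneg h0 h1 A
      · exact le_rfl) (Finset.mem_univ Finset.univ)
  simp only [hu, if_true] at this
  refine le_trans (le_of_eq ?_) this
  simp [wt]

lemma q_rec {p : ℝ} (h0 : 0 ≤ p) (h1 : p ≤ 1) (r d : ℕ) :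
    q p (r + 1) d * (2 * q p r d - q p (r + 1) d) ≤ q p (r + 1) (d + 1) := by
  have key : q p (r + 1) d * (2 * q p r d - q p (r + 1) d) =
      ∑ P : Finset (Fin d → Bool) × Finset (Fin d → Bool),
        ((if Perc (r + 1) d P.1 then wt d p P.1 else 0) * (if Perc r d P.2 then wt d p P.2 else 0) +
         (if Perc r d P.1 then wt d p P.1 else 0) * (if Perc (r + 1) d P.2 then wt d p P.2 else 0) -
         (if Perc (r + 1) d P.1 then wt d p P.1 else 0) *
           (if Perc (r + 1) d P.2 then wt d p P.2 else 0)) := by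
    rw [Finset.sum_sub_distrib, Finset.sum_add_distrib, Fintype.sum_prod_type,
      Fintype.sum_prod_type, Fintype.sum_prod_type]
    simp only [← Finset.mul_sum, ← Finset.sum_mul]
    unfold q Pr
    ring
  rw [key]
  unfold q Pr
  rw [← (splitEquiv d).symm.sum_comp]
  apply Finset.sum_le_sum
  rintro ⟨A0, A1⟩ _
  simp only [splitEquiv, Equiv.coe_fn_symm_mk, wt_split, side_glue_false, side_glue_true]
  have w0 := wt_nonneg h0 h1 A0
  have w1 := wt_nonneg h0 h1 A1
  have w01 := mul_nonneg w0 w1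
  have s0 : Perc (r + 1) d A0 → Perc r d A1 → Perc (r + 1) (d + 1) (glue A0 A1) := by
    intro a b
    apply perc_step _ false
    · rw [side_glue_false]; exact a
    · rw [Bool.not_false, side_glue_true]; exact b
  have s1 : Perc (r + 1) d A1 → Perc r d A0 → Perc (r + 1) (d + 1) (glue A0 A1) := by
    intro a b
    apply perc_step _ true
    · rw [side_glue_true]; exact a
    · rw [Bool.not_true, side_glue_false]; exact b
  have m0 := perc_mono (r := r) A0
  have m1 := perc_mono (r := r) A1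
  by_cases a0 : Perc (r + 1) d A0 <;> by_cases a1 : Perc (r + 1) d A1 <;>
    by_cases b0 : Perc r d A0 <;> by_cases b1 : Perc r d A1 <;>
    by_cases c : Perc (r + 1) (d + 1) (glue A0 A1) <;>
    simp_all

lemma seq_step (a g : ℕ → ℝ) (N E K : ℕ)
    (ha0 : ∀ k, 0 ≤ a k) (hag : ∀ k, a k ≤ g k) (hg1 : ∀ k, g k ≤ 1)
    (hrec : ∀ k, a k * (2 * g k - a k) ≤ a (k + 1))
    (hbase : Real.exp (-(N : ℝ)) ≤ a 0)
    (hgE : ∀ k, Real.exp (-(E : ℝ)) ≤ g k)
    (hgK : ∀ j, 1 - g (K + j) ≤ (1 / 8) * (1 / 2) ^ j) :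
    (∀ k, Real.exp (-((N + K * E + 1 : ℕ) : ℝ)) ≤ a k) ∧
    (∀ j, 1 - a (K + 5 * (N + K * E + 1) + 5 + j) ≤ (1 / 8) * (1 / 2) ^ j) := by
  have hrec1 : ∀ k, a k * g k ≤ a (k + 1) := by
    intro k
    refine le_trans ?_ (hrec k)
    apply mul_le_mul_of_nonneg_left _ (ha0 k)
    linarith [hag k]
  have h1 : ∀ k : ℕ, Real.exp (-((N : ℝ) + k * E)) ≤ a k := by
    intro k
    induction k with
    | zero => simpa using hbase
    | succ k ih =>
      refine le_trans ?_ (hrec1 k)
      have : Real.exp (-((N : ℝ) + (k + 1 : ℕ) * E)) =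
          Real.exp (-((N : ℝ) + k * E)) * Real.exp (-(E : ℝ)) := by
        rw [← Real.exp_add]; congr 1; push_cast; ring
      rw [this]
      exact mul_le_mul ih (hgE k) (Real.exp_pos _).le (ha0 k)
  have hx : ∀ j : ℕ, (0 : ℝ) < (1 / 2) ^ j ∧ ((1 : ℝ) / 2) ^ j ≤ 1 := fun j =>
    ⟨by positivity, pow_le_one₀ (by norm_num) (by norm_num)⟩
  have h2 : ∀ j : ℕ, Real.exp (-((N : ℝ) + K * E)) * (3 / 4 + (1 / 4) * (1 / 2) ^ j) ≤ a (K + j) := by
    intro j
    induction j with
    | zero => have := h1 K; simp only [pow_zero, add_zero]; linarith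
    | succ j ih =>
      refine le_trans ?_ (hrec1 (K + j))
      have hg := hgK j
      obtain ⟨x0, x1⟩ := hx j
      set x : ℝ := (1 / 2) ^ j with hxdef
      have e : ((1 : ℝ) / 2) ^ (j + 1) = x / 2 := by rw [pow_succ]; ring
      rw [e]
      have hpos := Real.exp_pos (-((N : ℝ) + K * E))
      set y := Real.exp (-((N : ℝ) + K * E))
      have t1 : y * (3 / 4 + 1 / 4 * (x / 2)) ≤ y * (3 / 4 + 1 / 4 * x) * (1 - 1 / 8 * x) := by
        rw [mul_assoc]
        apply mul_le_mul_of_nonneg_left _ hpos.le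
        nlinarith
      refine le_trans t1 ?_
      apply mul_le_mul ih (by linarith) (by linarith) (ha0 _)
  have hexp1 : Real.exp (-1) ≤ 3 / 4 := by
    have := Real.add_one_le_exp (1 : ℝ)
    rw [Real.exp_neg, inv_le_comm₀ (Real.exp_pos _) (by norm_num)]
    linarith
  have hA : ∀ k, Real.exp (-((N + K * E + 1 : ℕ) : ℝ)) ≤ a k := by
    intro k
    rcases le_total k K with hk | hk
    · refine le_trans ?_ (h1 k)
      apply Real.exp_le_exp.2
      push_cast
      have : (k : ℝ) * E ≤ K * E :=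
        mul_le_mul_of_nonneg_right (by exact_mod_cast hk) (Nat.cast_nonneg _)
      linarith
    · obtain ⟨j, rfl⟩ := Nat.exists_eq_add_of_le hk
      refine le_trans ?_ (h2 j)
      have : Real.exp (-((N + K * E + 1 : ℕ) : ℝ)) =
          Real.exp (-((N : ℝ) + K * E)) * Real.exp (-1) := by
        rw [← Real.exp_add]; congr 1; push_cast; ring
      rw [this]
      apply mul_le_mul_of_nonneg_left _ (Real.exp_pos _).le
      have := (hx j).1
      linarith
  refine ⟨hA, ?_⟩
  set F : ℕ := N + K * E + 1 with hF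
  have hg78 : ∀ j, 7 / 8 ≤ g (K + j) := by
    intro j
    have := hgK j
    have := (hx j).2
    linarith
  have h3 : ∀ j : ℕ, 1 / 2 ≤ a (K + j) ∨ Real.exp (-(F : ℝ)) * (5 / 4) ^ j ≤ a (K + j) := by
    intro j
    induction j with
    | zero => right; simpa using hA K
    | succ j ih =>
      have hr := hrec (K + j)
      have hg := hg78 j
      have ha1 : a (K + j) ≤ 1 := le_trans (hag _) (hg1 _)
      have hr2 : a (K + j) * (7 / 4 - a (K + j)) ≤ a (K + (j + 1)) := by
        refine le_trans ?_ hr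
        apply mul_le_mul_of_nonneg_left _ (ha0 _)
        linarith
      by_cases hh : 1 / 2 ≤ a (K + j)
      · left; nlinarith
      · right
        have ih' := ih.resolve_left hh
        rw [pow_succ, ← mul_assoc]
        push Not at hh
        have := ha0 (K + j)
        nlinarith
  have h4 : ∀ j : ℕ, 5 * F ≤ j → 1 / 2 ≤ a (K + j) := by
    intro j hj
    rcases h3 j with h | h
    · exact h
    · have e1 : Real.exp 1 ≤ (5 / 4) ^ 5 := by
        have := Real.exp_one_lt_d9
        norm_num at this ⊢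
        linarith
      have e2 : Real.exp (F : ℝ) ≤ (5 / 4) ^ j := by
        calc Real.exp (F : ℝ) = Real.exp 1 ^ F := by rw [← Real.exp_nat_mul]; simp
          _ ≤ ((5 / 4) ^ 5) ^ F := pow_le_pow_left₀ (Real.exp_pos _).le e1 _
          _ = (5 / 4) ^ (5 * F) := by rw [← pow_mul]
          _ ≤ (5 / 4) ^ j := pow_le_pow_right₀ (by norm_num) hj
      have e3 : (1 : ℝ) ≤ Real.exp (-(F : ℝ)) * (5 / 4) ^ j := by
        rw [Real.exp_neg, ← div_eq_inv_mul, le_div_iff₀ (Real.exp_pos _)]
        linarith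
      linarith
  have hf : ∀ k, 1 - a (k + 1) ≤ (1 - a k) ^ 2 + 2 * (1 - g k) := by
    intro k
    have := hrec k
    have ha1 : a k ≤ 1 := le_trans (hag _) (hg1 _)
    have := hg1 k
    nlinarith
  have hsmall : ∀ j, 3 ≤ j → 1 - g (K + j) ≤ 1 / 64 := by
    intro j hj
    have := hgK j
    have h : ((1 : ℝ) / 2) ^ j ≤ (1 / 2) ^ 3 := pow_le_pow_of_le_one (by norm_num) (by norm_num) hj
    norm_num at h ⊢
    linarith
  intro j
  induction j with
  | zero =>
    have b0 := h4 (5 * F + 3) (by omega)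
    have b0' : a (K + (5 * F + 3)) ≤ 1 := le_trans (hag _) (hg1 _)
    have b1 := hf (K + (5 * F + 3))
    have c1 := hsmall (5 * F + 3) (by omega)
    have b2 := hf (K + (5 * F + 4))
    have c2 := hsmall (5 * F + 4) (by omega)
    have b1' : a (K + (5 * F + 4)) ≤ 1 := le_trans (hag _) (hg1 _)
    have e1 : K + (5 * F + 3) + 1 = K + (5 * F + 4) := by ring
    have e2 : K + (5 * F + 4) + 1 = K + 5 * F + 5 + 0 := by ring
    rw [e1] at b1
    rw [e2] at b2
    have d1 : 1 - a (K + (5 * F + 4)) ≤ 9 / 32 := by nlinarith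
    simp only [pow_zero]
    nlinarith
  | succ j ih =>
    have b := hf (K + 5 * F + 5 + j)
    have c := hgK (5 * F + 5 + j)
    have e1 : K + (5 * F + 5 + j) = K + 5 * F + 5 + j := by ring
    rw [e1] at c
    obtain ⟨x0, x1⟩ := hx j
    have e2 : ((1 : ℝ) / 2) ^ (5 * F + 5 + j) ≤ (1 / 2) ^ 5 * (1 / 2) ^ j := by
      rw [← pow_add]
      exact pow_le_pow_of_le_one (by norm_num) (by norm_num) (by omega)
    have ha1 : a (K + 5 * F + 5 + j) ≤ 1 := le_trans (hag _) (hg1 _)
    rw [pow_succ, ← add_assoc]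
    set x : ℝ := (1 / 2) ^ j
    norm_num at e2
    have : (1 - a (K + 5 * F + 5 + j)) ^ 2 ≤ (1 / 8 * x) ^ 2 :=
      pow_le_pow_left₀ (by linarith) ih 2
    nlinarith

lemma main_ind (r : ℕ) : ∃ C : ℕ, 1 ≤ C ∧ ∀ N : ℕ, 1 ≤ N → ∀ p : ℝ, 0 ≤ p → p ≤ 1 →
    Real.exp (-(N : ℝ)) ≤ p → ∃ E K : ℕ, E ≤ C * N ^ (2 ^ r) ∧ K ≤ C * N ^ (2 ^ r) ∧
      (∀ k, Real.exp (-(E : ℝ)) ≤ q p (r + 1) k) ∧
      (∀ j, 1 - q p (r + 1) (K + j) ≤ (1 / 8) * (1 / 2) ^ j) := by
  induction r with
  | zero =>
    refine ⟨15, by norm_num, ?_⟩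
    intro N hN p h0 h1 hp
    have := seq_step (q p 1) (q p 0) N 0 0 (q_nonneg h0 h1 _) (q_mono h0 h1 _) (q_le_one h0 h1 _)
      (q_rec h0 h1 _) (le_trans hp (q_base h0 h1 _)) (by intro k; simp [q_zero])
      (by intro j; simp [q_zero])
    refine ⟨_, _, ?_, ?_, this.1, this.2⟩ <;> simp <;> omega
  | succ r ih =>
    obtain ⟨C, hC, h⟩ := ih
    refine ⟨5 * C * C + C + 15, by omega, ?_⟩
    intro N hN p h0 h1 hp
    obtain ⟨E, K, hE, hK, hq1, hq2⟩ := h N hN p h0 h1 hp
    have := seq_step (q p (r + 1 + 1)) (q p (r + 1)) N E K (q_nonneg h0 h1 _) (q_mono h0 h1 _)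
      (q_le_one h0 h1 _) (q_rec h0 h1 _) (le_trans hp (q_base h0 h1 _)) hq1 hq2
    have hM : N ^ (2 ^ (r + 1)) = N ^ (2 ^ r) * N ^ (2 ^ r) := by
      rw [pow_succ, pow_mul, sq]
    have hN1 : N ≤ N ^ (2 ^ r) := Nat.le_self_pow (by positivity) N
    set M := N ^ (2 ^ r)
    have hKE : K * E ≤ C * C * (M * M) := by
      calc K * E ≤ (C * M) * (C * M) := Nat.mul_le_mul hK hE
        _ = C * C * (M * M) := by ring
    have hMM : M ≤ M * M := Nat.le_mul_self M
    have hCM : C * M ≤ C * (M * M) := Nat.mul_le_mul_left _ hMM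
    refine ⟨_, _, ?_, ?_, this.1, this.2⟩
    · rw [hM]; nlinarith
    · rw [hM]; nlinarith

/-- the upper-bound half of the frozen statement -/
theorem upper (r : ℕ) (hr : 1 ≤ r) : ∃ c : ℝ, 0 < c ∧ ∃ d₀ : ℕ, ∀ d : ℕ, d₀ ≤ d →
    ∀ p : ℝ, 0 ≤ p → p ≤ 1 →
      Real.exp (-(c * (d : ℝ) ^ ((1 : ℝ) / 2 ^ (r - 1)))) ≤ p →
      1 / 2 < (∑ A : Finset (Fin d → Bool),
          if (∀ S : Finset (Fin d → Bool), A ⊆ S →
                (∀ v : Fin d → Bool,
                  r ≤ (S.filter (fun u => hammingDist u v = 1)).card → v ∈ S) →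
                S = Finset.univ)
          then p ^ A.card * (1 - p) ^ (2 ^ d - A.card) else 0) := by
  obtain ⟨r, rfl⟩ := Nat.exists_eq_add_of_le' hr
  obtain ⟨C, hC, h⟩ := main_ind r
  have hCpos : (0 : ℝ) < C := by exact_mod_cast hC
  set e : ℝ := (1 : ℝ) / 2 ^ r with he
  have he0 : 0 < e := by positivity
  refine ⟨((1 : ℝ) / C) ^ e / 2, by positivity, C, ?_⟩
  intro d hd p h0 h1 hp
  simp only [Nat.add_sub_cancel] at hp
  rw [← he] at hp
  set x : ℝ := ((d : ℝ) / C) ^ e with hx
  have hdC : (1 : ℝ) ≤ (d : ℝ) / C := by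
    rw [le_div_iff₀ hCpos, one_mul]; exact_mod_cast hd
  have hx1 : 1 ≤ x := Real.one_le_rpow hdC he0.le
  set N := ⌊x⌋₊ with hN
  have hN1 : 1 ≤ N := Nat.le_floor (by simpa using hx1)
  have hNx : (N : ℝ) ≤ x := Nat.floor_le (by linarith)
  have hxN : x < N + 1 := Nat.lt_floor_add_one x
  have hN1' : (1 : ℝ) ≤ N := by exact_mod_cast hN1
  have hmul : ((1 : ℝ) / C) ^ e / 2 * (d : ℝ) ^ e = x / 2 := by
    rw [hx, div_eq_mul_one_div (d : ℝ) C, Real.mul_rpow (Nat.cast_nonneg _) (by positivity)]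
    ring
  rw [hmul] at hp
  have hpN : Real.exp (-(N : ℝ)) ≤ p := le_trans (Real.exp_le_exp.2 (by linarith)) hp
  obtain ⟨E, K, _, hK, _, hq⟩ := h N hN1 p h0 h1 hpN
  have hpow : x ^ (2 ^ r) = (d : ℝ) / C := by
    rw [hx, ← Real.rpow_natCast, ← Real.rpow_mul (by linarith)]
    have : e * ((2 ^ r : ℕ) : ℝ) = 1 := by rw [he]; push_cast; field_simp
    rw [this, Real.rpow_one]
  have hKd : K ≤ d := by
    have : (C : ℝ) * (N : ℝ) ^ (2 ^ r) ≤ d := by
      calc (C : ℝ) * (N : ℝ) ^ (2 ^ r) ≤ C * x ^ (2 ^ r) := by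
            apply mul_le_mul_of_nonneg_left _ hCpos.le
            exact pow_le_pow_left₀ (Nat.cast_nonneg _) hNx _
        _ = (d : ℝ) := by rw [hpow]; field_simp
    have h' : C * N ^ (2 ^ r) ≤ d := by exact_mod_cast this
    omega
  obtain ⟨j, rfl⟩ := Nat.exists_eq_add_of_le hKd
  have := hq j
  have hj : ((1 : ℝ) / 2) ^ j ≤ 1 := pow_le_one₀ (by norm_num) (by norm_num)
  have hlt : 1 / 2 < q p (r + 1) (K + j) := by linarith
  convert hlt using 1
  unfold q Pr wt Perc
  apply Finset.sum_congr rfl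
  intro A _
  congr

end Pool.Agent.P.MP_3a7cda_pr.Upper
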